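import Pool.Agent.Q20.SI.Sch

/-! Stark's rational conjecture over extension fields: definitions. -/

set_option autoImplicit false
set_option linter.unusedSectionVars false

namespace Pool.Agent.Q92.SD

open NumberField IsDedekindDomain Pool.Agent.Q20.RS Pool.Agent.Q20.SI

/-- `Q1` for all data over `E` -/
def Q1Over (E : Type) [Field E] [NumberField E] : Prop :=
  ∀ (L : Type) [Field L] [NumberField L] [Algebra E L] [IsGalois E L] (D : OrderData E L), D.Q1

/-- `Q1` for the data `(L/E, S, T)` over `E` for which `L/E` is cyclic of degree greater than `1` and `S`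
consists of the archimedean places, the ramified primes and at most one further prime -/
def Q1Cyc (E : Type) [Field E] [NumberField E] : Prop :=
  ∀ (L : Type) [Field L] [NumberField L] [Algebra E L] [IsGalois E L] (D : OrderData E L),
    IsCyclic (L ≃ₐ[E] L) → (∃ g : L ≃ₐ[E] L, g ≠ 1) →
    (∃ p : HeightOneSpectrum (𝓞 E), ∀ q ∈ D.S, q = p ∨ ¬ Unrm L q) → D.Q1

/-- the local degrees `[E_I : ℚ_q]` at the primes `I` of `E` above `q ∈ S` belong to `D q` -/
def LocIn (S : Finset ℕ) (D : ℕ → Set ℕ) (E : Type) [Field E] [NumberField E] : Prop :=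
  ∀ q ∈ S, ∀ I : Ideal (𝓞 E), I.IsPrime → (q : 𝓞 E) ∈ I →
    I.ramificationIdx ℤ * I.inertiaDeg ℤ ∈ D q

/-- `A(χ)^σ` and `A(χ^σ)` have the same `e`-th power, at all sufficiently large levels -/
def StarkPow (e : ℕ) {K : Type} [Field K] [NumberField K] {F : Q20.RS.Sub K} (χ : Fn F)
    (σ : ℂ ≃+* ℂ) : Prop :=
  RL.Eventually fun ℓ : Lvl K => σ (ℓ.A χ) ^ e = ℓ.A (conj σ χ) ^ e

/-- Stark's equality for the `e`-th powers, for the character `χ` of `Gal(L/K)` -/
def StarkCharPow (e : ℕ) {K L : Type} [Field K] [NumberField K] [Field L] [NumberField L]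
    [Algebra K L] (χ : (L ≃ₐ[K] L) →* ℂˣ) (σ : ℂ ≃+* ℂ) : Prop :=
  ∀ (j : L →ₐ[K] AlgebraicClosure K) (ψ : RL.Lin (base K)),
    (∀ (y : L ≃ₐ[K] L) (g : (base K).fixingSubgroup),
      (∀ x : L, j (y x) = (g : Gal(AlgebraicClosure K/K)) (j x)) → cf χ y = ψ.fn g) →
    StarkPow e ψ.fn σ

/-- `A(χ)^σ` and `A(χ^σ)` have the same `e`-th power for all linear characters `χ` of the Galois groups
of the finite Galois extensions `L` of `F` and all automorphisms `σ` of `ℂ` -/
def Powers (F : Type) [Field F] [NumberField F] (e : ℕ) : Prop :=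
  ∀ (L : Type) [Field L] [NumberField L] [Algebra F L] [IsGalois F L]
    (χ : (L ≃ₐ[F] L) →* ℂˣ) (σ : ℂ ≃+* ℂ), StarkCharPow e χ σ

end Pool.Agent.Q92.SD
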