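import Pool.Agent.Q92.SD.Main
import Pool.Agent.Q223.LD.Law

/-! The product formula for the defects of Stark's conjecture. -/

set_option autoImplicit false
set_option linter.unusedSectionVars false

namespace Pool.Agent.Q92.SD

open NumberField IsDedekindDomain Pool.Agent.Q20.RS Pool.Agent.Q20.SI Pool.Agent.Q5.BR
open Pool.Agent.W353.NF Pool.Agent.W401.Cheb
open scoped Classical

section
variable {F : Type} [Field F] [NumberField F]

/-- the field `M` as a subfield of `F̄` -/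
theorem exists_field (M : Type) [Field M] [NumberField M] [Algebra F M] :
    ∃ (E : Q20.RS.Sub F) (h : base F ≤ E), Nonempty (M ≃ₐ[F] E) ∧ FinExt E ∧
      ∀ ψ : RL.Lin (base F), ind (base F) E (ψ.res h).fn = tw ψ M := by
  let i : M →ₐ[F] AlgebraicClosure F := IsAlgClosed.lift
  let e : M ≃ₐ[F] i.fieldRange := AlgEquiv.ofInjectiveField i
  have hE : FinExt i.fieldRange := by
    unfold FinExt
    exact e.toLinearEquiv.finiteDimensional
  have hb : base F ≤ i.fieldRange := bot_le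
  refine ⟨i.fieldRange, hb, ⟨e⟩, hE, fun ψ => ?_⟩
  rw [ind_res ψ hE hb]
  funext g
  unfold tw
  rw [Pool.Agent.Q5.HR.fixn_congr e]

theorem cl_zpow {z : ℂ} (hz : z ≠ 0) (n : ℤ) :
    RL.cl (⊥ : Subgroup ℂˣ) (z ^ n) = n • RL.cl (⊥ : Subgroup ℂˣ) z := by
  rw [RL.cl_of_ne ⊥ hz, RL.cl_of_ne ⊥ (zpow_ne_zero n hz), ← ofMul_zpow]
  congr 1
  rw [← QuotientGroup.mk_zpow]
  congr 1
  apply Units.ext
  rw [Units.val_zpow_eq_zpow_val, Units.val_mk0, Units.val_mk0]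

theorem cl_prod {ι : Type} (s : Finset ι) (z : ι → ℂ) (hz : ∀ j ∈ s, z j ≠ 0) :
    RL.cl (⊥ : Subgroup ℂˣ) (∏ j ∈ s, z j) = ∑ j ∈ s, RL.cl (⊥ : Subgroup ℂˣ) (z j) := by
  induction s using Finset.induction_on with
  | empty =>
    rw [Finset.prod_empty, Finset.sum_empty, RL.cl_zero _ one_ne_zero, Units.mk0_one]
    exact Subgroup.one_mem _
  | insert j s hj ih =>
    have h1 : z j ≠ 0 := hz j (Finset.mem_insert_self _ _)
    have h2 : ∀ k ∈ s, z k ≠ 0 := fun k hk => hz k (Finset.mem_insert_of_mem hk)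
    have h3 : ∏ k ∈ s, z k ≠ 0 := Finset.prod_ne_zero_iff.2 h2
    rw [Finset.prod_insert hj, Finset.sum_insert hj, ← ih h2, RL.cl_of_ne ⊥ (mul_ne_zero h1 h3),
      RL.cl_of_ne ⊥ h1, RL.cl_of_ne ⊥ h3, ← ofMul_mul, ← QuotientGroup.mk_mul, ← Units.mk0_mul]

/-- **The product formula.** -/
theorem defect_formula {ι : Type} [Fintype ι] {Y : ι → Ext F} {n : ι → ℤ}
    (hrel : ∀ g : GK F, ∑ j, n j * (fixn F (Y j).F g : ℤ) = 1)
    {E : ι → Q20.RS.Sub F} {hb : ∀ j, base F ≤ E j} (hE : ∀ j, FinExt (E j))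
    {ψ : RL.Lin (base F)} (hind : ∀ j, ind (base F) (E j) (ψ.res (hb j)).fn = tw ψ (Y j).F)
    (hψ : ψ.smooth) (σ : ℂ ≃+* ℂ) :
    RL.Eventually fun ℓ : Lvl F => defct ℓ σ ψ.fn = ∏ j, defct ℓ σ (ψ.res (hb j)).fn ^ n j := by
  have hD := RL.defect_addInd (K := F) ⊥ σ
  have hs : ∀ j, Char (ψ.res (hb j)).fn := fun j => RL.smooth_char (RL.smooth_res (hb j) hψ)
  let f : Option ι → GalF (base F) → ℂ := fun o => match o with
    | none => ψ.fn
    | some j => tw ψ (Y j).F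
  let c : Option ι → ℤ := fun o => match o with
    | none => -1
    | some j => n j
  have hf : ∀ o, Char (f o : Fn (base F)) := by
    rintro (_ | j)
    · exact RL.smooth_char hψ
    · exact (tw_char hψ (Y j).F).1
  have h2 := add_rel hD (Finset.univ : Finset (Option ι)) f hf c (by
    intro g
    rw [Fintype.sum_option]
    change ((-1 : ℤ) : ℂ) * ψ.fn g +
      ∑ j, (n j : ℂ) * (ψ.fn g * (fixn F (Y j).F (g : Gal(AlgebraicClosure F/F)) : ℂ)) = 0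
    have h3 := congrArg (fun z : ℤ => (z : ℂ)) (hrel (g : Gal(AlgebraicClosure F/F)))
    simp only [Int.cast_sum, Int.cast_mul, Int.cast_natCast, Int.cast_one] at h3
    have h4 : ∑ j, (n j : ℂ) * (ψ.fn g * (fixn F (Y j).F (g : Gal(AlgebraicClosure F/F)) : ℂ)) =
        ψ.fn g * ∑ j, (n j : ℂ) * (fixn F (Y j).F (g : Gal(AlgebraicClosure F/F)) : ℂ) := by
      rw [Finset.mul_sum]
      refine Finset.sum_congr rfl fun j _ => ?_
      ring
    rw [h4, h3]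
    push_cast
    ring)
  rw [Fintype.sum_option] at h2
  change (-1 : ℤ) • RL.defect (K := F) ⊥ σ (base F) ψ.fn +
    ∑ j, n j • RL.defect (K := F) ⊥ σ (base F) (tw ψ (Y j).F) = 0 at h2
  rw [neg_one_zsmul, neg_add_eq_zero] at h2
  have h3 : ∀ j, RL.defect (K := F) ⊥ σ (base F) (tw ψ (Y j).F) =
      RL.defect (K := F) ⊥ σ (E j) (ψ.res (hb j)).fn := fun j => by
    rw [← hind j, hD.ind _ _ (hb j) (hE j) _ (hs j)]
  simp only [h3] at h2
  let u : Lvl F → RL.Quot (⊥ : Subgroup ℂˣ) := fun ℓ => RL.cl ⊥ (defct ℓ σ ψ.fn)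
  let v : ι → Lvl F → RL.Quot (⊥ : Subgroup ℂˣ) := fun j ℓ =>
    RL.cl ⊥ (defct ℓ σ (ψ.res (hb j)).fn)
  have h6 : RL.Eventually fun ℓ : Lvl F => (u - ∑ j, n j • v j) ℓ = 0 := by
    refine (RL.germ_zero (u := u - ∑ j, n j • v j)).1 ?_
    change Filter.Germ.coeAddHom (RL.large F) (u - ∑ j, n j • v j) = 0
    rw [map_sub, map_sum, sub_eq_zero]
    refine h2.trans (Finset.sum_congr rfl fun j _ => ?_)
    rw [map_zsmul]
    rfl
  have hne : ∀ {E : Q20.RS.Sub F} (_ : FinExt E) {χ : Fn E} (_ : Char χ),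
      RL.Eventually fun ℓ : Lvl F => defct ℓ σ χ ≠ 0 := fun {_} hE {_} h =>
    ((RL.A_ne hE h).and (RL.A_ne hE (RL.conj_character h σ))).mono
      fun _ h => div_ne_zero ((map_ne_zero σ).2 h.1) h.2
  have h7 : ∀ s : Finset ι, RL.Eventually fun ℓ : Lvl F =>
      ∀ j ∈ s, defct ℓ σ (ψ.res (hb j)).fn ≠ 0 := by
    intro s
    induction s using Finset.induction_on with
    | empty => exact ⟨base F, fin_base, fun ℓ _ j hj => absurd hj (Finset.notMem_empty j)⟩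
    | insert j s hj ih =>
      refine ((hne (hE j) (hs j)).and ih).mono fun ℓ hℓ k hk => ?_
      rcases Finset.mem_insert.1 hk with rfl | hk
      · exact hℓ.1
      · exact hℓ.2 k hk
  refine ((h6.and (hne fin_base (RL.smooth_char hψ))).and (h7 Finset.univ)).mono fun ℓ hℓ => ?_
  obtain ⟨⟨h8, h9⟩, h10⟩ := hℓ
  have h11 : RL.cl (⊥ : Subgroup ℂˣ) (defct ℓ σ ψ.fn) =
      ∑ j, n j • RL.cl (⊥ : Subgroup ℂˣ) (defct ℓ σ (ψ.res (hb j)).fn) := by
    have h12 : u ℓ - (∑ j, n j • v j) ℓ = 0 := h8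
    rw [Finset.sum_apply, sub_eq_zero] at h12
    exact h12
  have h13 : ∏ j, defct ℓ σ (ψ.res (hb j)).fn ^ n j ≠ 0 :=
    Finset.prod_ne_zero_iff.2 fun j _ => zpow_ne_zero _ (h10 j (Finset.mem_univ j))
  have h14 : RL.cl (⊥ : Subgroup ℂˣ) (defct ℓ σ ψ.fn) =
      RL.cl ⊥ (∏ j, defct ℓ σ (ψ.res (hb j)).fn ^ n j) := by
    rw [h11, cl_prod _ _ fun j _ => zpow_ne_zero _ (h10 j (Finset.mem_univ j))]
    exact Finset.sum_congr rfl fun j _ => (cl_zpow (h10 j (Finset.mem_univ j)) _).symm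
  exact cl_inj h9 h13 h14

/-- **The product formula with large local degrees.** -/
theorem exists_formula {S : Finset ℕ} (hS : ∀ q ∈ S, q.Prime) {N : ℕ} (hN : N ≠ 0) :
    ∃ (ι : Type) (_ : Fintype ι) (E : ι → Q20.RS.Sub F) (hb : ∀ j, base F ≤ E j) (n : ι → ℤ),
      (∀ j, FinExt (E j)) ∧
      (∀ j, ∃ p : ℕ, p.Prime ∧ ∀ (M : Type) [Field M] [NumberField M] [Algebra F M],
        Nonempty (M ≃ₐ[F] E j) → ∀ q ∈ S, ∀ I : Ideal (𝓞 M), I.IsPrime → (q : 𝓞 M) ∈ I →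
          ordCompl[p] N ∣ I.ramificationIdx ℤ * I.inertiaDeg ℤ) ∧
      ∀ ψ : RL.Lin (base F), ψ.smooth → ∀ σ : ℂ ≃+* ℂ,
        RL.Eventually fun ℓ : Lvl F => defct ℓ σ ψ.fn = ∏ j, defct ℓ σ (ψ.res (hb j)).fn ^ n j := by
  obtain ⟨ι, hι, Y, n, hY, hrel⟩ := Pool.Agent.Q223.LD.loc_relation F S hS hN
  choose E hb he hE hind using fun j => exists_field (F := F) (Y j).F
  refine ⟨ι, hι, E, hb, n, hE, fun j => ?_, fun ψ hψ σ =>
    defect_formula hrel hE (fun j => hind j ψ) hψ σ⟩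
  obtain ⟨p, hp, hpY⟩ := hY j
  refine ⟨p, hp, fun M _ _ _ ⟨e⟩ q hq => ?_⟩
  obtain ⟨e'⟩ := he j
  exact Pool.Agent.Q223.LD.locDvd_up ((e'.trans e.symm : (Y j).F ≃ₐ[F] M) : (Y j).F →+* M) (hpY q hq)

end

end Pool.Agent.Q92.SD
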