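import Pool.Agent.Q20.TW.Stp
import Pool.Agent.Q5.VL.Up
import Pool.Agent.Q5.VL.Abs

/-! Linear characters over extension fields: the characters induced from the restrictions of a linear
character, and relations between them. -/

set_option autoImplicit false
set_option linter.unusedSectionVars false

namespace Pool.Agent.Q92.SD

open NumberField Pool.Agent.Q20.RS Pool.Agent.W353.NF Pool.Agent.W401.Cheb Pool.Agent.Q5.BR
open Pool.Agent.Q20.RS.RL (AddInd plus)
open scoped Classical

section
variable {K : Type} [Field K] [NumberField K]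

/-- the character of `Gal(K̄/K)` induced from the restriction of `ψ` to the field `M` -/
noncomputable def tw (ψ : RL.Lin (base K)) (M : Type) [Field M] [Algebra K M] : Fn (base K) :=
  fun g => ψ.fn g * (fixn K M (g : Gal(AlgebraicClosure K/K)) : ℂ)

theorem exists_ext (F : Q20.RS.Sub K) (f : F →ₐ[K] AlgebraicClosure K) :
    ∃ g : Gal(AlgebraicClosure K/K), ∀ x : F, g x = f x := by
  obtain ⟨g₀, hg₀⟩ := IntermediateField.exists_algHom_of_adjoin_splits
    (F := K) (E := AlgebraicClosure K) (K := AlgebraicClosure K) (S := Set.univ)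
    (fun s _ => ⟨Algebra.IsIntegral.isIntegral s, IsAlgClosed.splits _⟩) f
    (IntermediateField.adjoin_univ K (AlgebraicClosure K))
  refine ⟨AlgEquiv.ofBijective g₀ (Algebra.IsAlgebraic.algHom_bijective g₀), fun x => ?_⟩
  exact DFunLike.congr_fun hg₀ x

theorem mem_base (g : Gal(AlgebraicClosure K/K)) : g ∈ (base K).fixingSubgroup := by
  rw [IntermediateField.mem_fixingSubgroup_iff]
  intro x hx
  obtain ⟨y, rfl⟩ := IntermediateField.mem_bot.1 hx
  exact g.commutes y

/-- the cosets -/
abbrev QQ (E : Q20.RS.Sub K) : Type := GalF (base K) ⧸ E.fixingSubgroup.subgroupOf (base K).fixingSubgroup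

/-- cosets and embeddings -/
noncomputable def emb (E : Q20.RS.Sub K) : QQ E → (E →ₐ[K] AlgebraicClosure K) :=
  Quotient.lift (fun g : GalF (base K) =>
      ((g : Gal(AlgebraicClosure K/K)) : AlgebraicClosure K →ₐ[K] AlgebraicClosure K).comp E.val)
    (fun a b hab => by
      rw [← Quotient.eq_iff_equiv] at hab
      have h1 := QuotientGroup.eq.1 hab
      rw [Subgroup.mem_subgroupOf] at h1
      apply AlgHom.ext
      intro x
      change (a : Gal(AlgebraicClosure K/K)) x = (b : Gal(AlgebraicClosure K/K)) x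
      have h2 := (IntermediateField.mem_fixingSubgroup_iff _ _).1 h1 x x.2
      have h3 : (a : Gal(AlgebraicClosure K/K))
        (((a⁻¹ * b : GalF (base K)) : Gal(AlgebraicClosure K/K)) x) =
          (a : Gal(AlgebraicClosure K/K)) x := congrArg _ h2
      rw [Subgroup.coe_mul, Subgroup.coe_inv, ← AlgEquiv.mul_apply, mul_inv_cancel_left] at h3
      exact h3.symm)

theorem emb_mk (E : Q20.RS.Sub K) (g : GalF (base K)) (x : E) :
    emb E (g : QQ E) x = (g : Gal(AlgebraicClosure K/K)) x := rfl

theorem emb_bij (E : Q20.RS.Sub K) : Function.Bijective (emb E) := by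
  constructor
  · intro a b hab
    obtain ⟨a, rfl⟩ := QuotientGroup.mk_surjective a
    obtain ⟨b, rfl⟩ := QuotientGroup.mk_surjective b
    rw [QuotientGroup.eq, Subgroup.mem_subgroupOf, IntermediateField.mem_fixingSubgroup_iff]
    intro x hx
    have h1 := DFunLike.congr_fun hab (⟨x, hx⟩ : E)
    rw [emb_mk, emb_mk] at h1
    change (a : Gal(AlgebraicClosure K/K)) x = (b : Gal(AlgebraicClosure K/K)) x at h1
    rw [Subgroup.coe_mul, Subgroup.coe_inv, AlgEquiv.mul_apply, ← h1, ← AlgEquiv.mul_apply,
      inv_mul_cancel]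
    rfl
  · intro f
    obtain ⟨g, hg⟩ := exists_ext E f
    refine ⟨((⟨g, mem_base g⟩ : GalF (base K)) : QQ E), AlgHom.ext fun x => ?_⟩
    rw [emb_mk]
    exact hg x

theorem card_fix (E : Q20.RS.Sub K) (g : GalF (base K)) :
    Nat.card {x : QQ E // g • x = x} = fixn K E (g : Gal(AlgebraicClosure K/K)) := by
  unfold fixn
  refine Nat.card_congr (Equiv.subtypeEquiv (Equiv.ofBijective (emb E) (emb_bij E)) fun x => ?_)
  obtain ⟨a, rfl⟩ := QuotientGroup.mk_surjective x
  have h1 : act K E (g : Gal(AlgebraicClosure K/K)) (emb E (a : QQ E)) =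
      emb E ((g * a : GalF (base K)) : QQ E) := rfl
  have h2 : g • (a : QQ E) = ((g * a : GalF (base K)) : QQ E) := rfl
  change g • (a : QQ E) = (a : QQ E) ↔
    act K E (g : Gal(AlgebraicClosure K/K)) (emb E (a : QQ E)) = emb E (a : QQ E)
  rw [h1, h2]
  exact (emb_bij E).1.eq_iff.symm

/-- **The induced character.** -/
theorem ind_res (ψ : RL.Lin (base K)) {E : Q20.RS.Sub K} (hE : FinExt E) (h : base K ≤ E) :
    ind (base K) E (ψ.res h).fn = tw ψ E := by
  have hfd : FiniteDimensional K E := hE
  have hfin : Finite (QQ E) := Finite.of_injective (emb E) (emb_bij E).1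
  have hft : Fintype (QQ E) := Fintype.ofFinite _
  funext g
  let ψ' : GalF (base K) →* ℂˣ := ψ
  have h1 : ∀ x : QQ E,
      (if h' : ((x.out⁻¹ * g * x.out : GalF (base K)) : Gal(AlgebraicClosure K/K)) ∈
        E.fixingSubgroup then (ψ.res h).fn ⟨_, h'⟩ else 0) = if g • x = x then ψ.fn g else 0 := by
    intro x
    have h2 : (((x.out⁻¹ * g * x.out : GalF (base K)) : Gal(AlgebraicClosure K/K)) ∈
        E.fixingSubgroup) ↔ g • x = x := by
      have h3 : g • x = ((g * x.out : GalF (base K)) : QQ E) := by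
        conv_lhs => rw [← QuotientGroup.out_eq' x]
        rfl
      rw [h3]
      conv_rhs => rw [eq_comm, ← QuotientGroup.out_eq' x]
      rw [QuotientGroup.eq, Subgroup.mem_subgroupOf]
      simp only [QuotientGroup.out_eq', mul_assoc]
    by_cases hx : g • x = x
    · rw [dif_pos (h2.2 hx), if_pos hx]
      change ((ψ' (x.out⁻¹ * g * x.out) : ℂˣ) : ℂ) = ((ψ' g : ℂˣ) : ℂ)
      rw [map_mul, map_mul, map_inv, mul_comm, mul_inv_cancel_left]
    · rw [dif_neg (fun hc => hx (h2.1 hc)), if_neg hx]
  unfold ind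
  rw [finsum_congr h1, finsum_eq_sum_of_fintype, ← Finset.sum_filter, Finset.sum_const,
    nsmul_eq_mul, mul_comm]
  unfold tw
  congr 2
  rw [← card_fix, Nat.card_eq_fintype_card, Fintype.card_subtype]

end

end Pool.Agent.Q92.SD
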