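import Pool.Agent.Q92.SD.Ind
import Pool.Agent.Q92.SD.Defs

/-! Additive inductive functions and the laws for the extension fields. -/

set_option autoImplicit false
set_option linter.unusedSectionVars false

namespace Pool.Agent.Q92.SD

open NumberField Pool.Agent.Q20.RS Pool.Agent.W353.NF Pool.Agent.W401.Cheb Pool.Agent.Q5.BR
open Pool.Agent.Q20.RS.RL (AddInd plus StarkEq)
open Pool.Agent.Q5.VL (IsLaw)
open scoped Classical

section
variable {K : Type} [Field K] [NumberField K]

theorem fin_base : FinExt (base K) := by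
  unfold FinExt base
  infer_instance

/-- the character `ψ` times a permutation character is a character -/
theorem tw_char {ψ : RL.Lin (base K)} (hψ : ψ.smooth) (M : Type) [Field M] [NumberField M]
    [Algebra K M] : Char (tw ψ M) ∧ ∃ (E : Q20.RS.Sub K) (h : base K ≤ E) (_ : M ≃ₐ[K] E),
      FinExt E ∧ ind (base K) E (ψ.res h).fn = tw ψ M := by
  let i : M →ₐ[K] AlgebraicClosure K := IsAlgClosed.lift
  let e : M ≃ₐ[K] i.fieldRange := AlgEquiv.ofInjectiveField i
  have hE : FinExt i.fieldRange := by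
    unfold FinExt
    exact e.toLinearEquiv.finiteDimensional
  have hb : base K ≤ i.fieldRange := bot_le
  have h1 : ind (base K) i.fieldRange (ψ.res hb).fn = tw ψ M := by
    rw [ind_res ψ hE hb]
    funext g
    unfold tw
    rw [Pool.Agent.Q5.HR.fixn_congr e]
  refine ⟨?_, i.fieldRange, hb, e, hE, h1⟩
  rw [← h1]
  exact RL.ind_char' fin_base hE (RL.smooth_char (RL.smooth_res hb hψ))

/-- additivity for combinations with coefficients in `ℕ` -/
theorem add_sum {B : Type} [AddCommGroup B] {D : ∀ F : Q20.RS.Sub K, Fn F → B} (hD : AddInd D)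
    {ι : Type} (s : Finset ι) (f : ι → GalF (base K) → ℂ) (hf : ∀ j, Char (f j : Fn (base K)))
    (a : ι → ℕ) : Char (fun g => ∑ j ∈ s, (a j : ℂ) * f j g : Fn (base K)) ∧
      D (base K) (fun g => ∑ j ∈ s, (a j : ℂ) * f j g) = ∑ j ∈ s, a j • D (base K) (f j) := by
  have h0 : D (base K) (fun _ => 0) = 0 := by
    have h1 := hD.add (base K) fin_base _ _ (RL.zero_character (base K))
      (RL.zero_character (base K))
    have h2 : plus (fun _ => 0 : Fn (base K)) (fun _ => 0) = fun _ => 0 :=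
      funext fun _ => add_zero (0 : ℂ)
    rw [h2] at h1
    exact left_eq_add.1 h1
  have hmul : ∀ (j : ι) (n : ℕ), Char (fun g => (n : ℂ) * f j g : Fn (base K)) ∧
      D (base K) (fun g => (n : ℂ) * f j g) = n • D (base K) (f j) := by
    intro j n
    induction n with
    | zero =>
      have h2 : (fun g => ((0 : ℕ) : ℂ) * f j g : Fn (base K)) = fun _ => 0 :=
        funext fun g => by rw [Nat.cast_zero, zero_mul]
      rw [h2, h0, zero_nsmul]
      exact ⟨RL.zero_character _, rfl⟩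
    | succ n ih =>
      have h2 : (fun g => ((n + 1 : ℕ) : ℂ) * f j g : Fn (base K)) =
          plus (fun g => (n : ℂ) * f j g : Fn (base K)) (f j) :=
        funext fun g => by
          change ((n + 1 : ℕ) : ℂ) * f j g = (n : ℂ) * f j g + f j g
          push_cast
          ring
      rw [h2, hD.add _ fin_base _ _ ih.1 (hf j), ih.2, succ_nsmul]
      exact ⟨RL.plus_char fin_base ih.1 (hf j), rfl⟩
  induction s using Finset.induction_on with
  | empty =>
    simp only [Finset.sum_empty]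
    exact ⟨RL.zero_character _, h0⟩
  | insert j s hj ih =>
    have h2 : (fun g => ∑ j ∈ insert j s, (a j : ℂ) * f j g : Fn (base K)) =
        plus (fun g => (a j : ℂ) * f j g : Fn (base K)) (fun g => ∑ j ∈ s, (a j : ℂ) * f j g) :=
      funext fun g => Finset.sum_insert hj
    rw [h2, hD.add _ fin_base _ _ (hmul j (a j)).1 ih.1, ih.2, (hmul j (a j)).2,
      Finset.sum_insert hj]
    exact ⟨RL.plus_char fin_base (hmul j (a j)).1 ih.1, rfl⟩

/-- additivity for relations with coefficients in `ℤ` -/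
theorem add_rel {B : Type} [AddCommGroup B] {D : ∀ F : Q20.RS.Sub K, Fn F → B} (hD : AddInd D)
    {ι : Type} (s : Finset ι) (f : ι → GalF (base K) → ℂ) (hf : ∀ j, Char (f j : Fn (base K)))
    (n : ι → ℤ) (h : ∀ g, ∑ j ∈ s, (n j : ℂ) * f j g = 0) :
    ∑ j ∈ s, n j • D (base K) (f j) = 0 := by
  have hn : ∀ j, n j = ((n j).toNat : ℤ) - ((-n j).toNat : ℤ) := fun j => (Int.toNat_sub_toNat_neg _).symm
  have h1 := (add_sum hD s f hf fun j => (n j).toNat).2
  have h2 := (add_sum hD s f hf fun j => (-n j).toNat).2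
  have h3 : (fun g => ∑ j ∈ s, (((n j).toNat : ℕ) : ℂ) * f j g : Fn (base K)) =
      fun g => ∑ j ∈ s, (((-n j).toNat : ℕ) : ℂ) * f j g := by
    funext g
    rw [← sub_eq_zero, ← Finset.sum_sub_distrib, ← h g]
    refine Finset.sum_congr rfl fun j _ => ?_
    rw [← sub_mul]
    congr 1
    have h4 := congrArg (fun z : ℤ => (z : ℂ)) (hn j)
    simp only [Int.cast_sub, Int.cast_natCast] at h4
    exact h4.symm
  rw [h3, h2] at h1
  have h5 : ∑ j ∈ s, n j • D (base K) (f j) = ∑ j ∈ s, (n j).toNat • D (base K) (f j) -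
      ∑ j ∈ s, (-n j).toNat • D (base K) (f j) := by
    rw [← Finset.sum_sub_distrib]
    refine Finset.sum_congr rfl fun j _ => ?_
    conv_lhs => rw [hn j]
    rw [sub_zsmul, natCast_zsmul, natCast_zsmul, sub_eq_add_neg]
  rw [h5, ← h1, sub_self]

/-- **The law.** -/
theorem tw_isLaw {B : Type} [AddCommGroup B] {D : ∀ F : Q20.RS.Sub K, Fn F → B} (hD : AddInd D)
    {ψ : RL.Lin (base K)} (hψ : ψ.smooth) :
    IsLaw (K := K) (fun M _ _ _ t => t • D (base K) (tw ψ M) = 0) where
  zero := fun M _ _ _ => zero_zsmul _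
  add := by
    intro M _ _ _ t u ht hu
    rw [add_zsmul, ht, hu, add_zero]
  neg := by
    intro M _ _ _ t ht
    rw [neg_zsmul, ht, neg_zero]
  step := by
    intro M _ _ _ ι _ Y _ _ n m hrel t hj
    have h1 := Pool.Agent.Q5.VL.rel_up (K := K) (F := M) (Y := Y) (n := n) (m := m) hrel
    let f : Option ι → GalF (base K) → ℂ := fun o => match o with
      | none => tw ψ M
      | some j => tw ψ (Y j).F
    let c : Option ι → ℤ := fun o => match o with
      | none => -m
      | some j => n j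
    have hf : ∀ o, Char (f o : Fn (base K)) := by
      rintro (_ | j)
      · exact (tw_char hψ M).1
      · exact (tw_char hψ (Y j).F).1
    have h2 := add_rel hD (Finset.univ : Finset (Option ι)) f hf c (by
      intro g
      rw [Fintype.sum_option]
      change ((-m : ℤ) : ℂ) * (ψ.fn g * (fixn K M (g : Gal(AlgebraicClosure K/K)) : ℂ)) +
        ∑ j, (n j : ℂ) * (ψ.fn g * (fixn K (Y j).F (g : Gal(AlgebraicClosure K/K)) : ℂ)) = 0
      have h3 := congrArg (fun z : ℤ => (z : ℂ)) (h1 (g : Gal(AlgebraicClosure K/K)))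
      simp only [Int.cast_sum, Int.cast_mul, Int.cast_natCast] at h3
      have h4 : ∑ j, (n j : ℂ) * (ψ.fn g * (fixn K (Y j).F (g : Gal(AlgebraicClosure K/K)) : ℂ)) =
          ψ.fn g * ∑ j, (n j : ℂ) * (fixn K (Y j).F (g : Gal(AlgebraicClosure K/K)) : ℂ) := by
        rw [Finset.mul_sum]
        refine Finset.sum_congr rfl fun j _ => ?_
        ring
      rw [h4, h3, Int.cast_neg]
      ring)
    rw [Fintype.sum_option] at h2
    change -m • D (base K) (tw ψ M) + ∑ j, n j • D (base K) (tw ψ (Y j).F) = 0 at h2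
    have h3 : m • D (base K) (tw ψ M) = ∑ j, n j • D (base K) (tw ψ (Y j).F) := by
      rw [neg_zsmul] at h2
      exact (neg_add_eq_zero.1 h2)
    rw [mul_comm, mul_zsmul, h3, Finset.smul_sum]
    refine Finset.sum_eq_zero fun j _ => ?_
    rw [smul_comm, hj j, smul_zero]

theorem cl_pow {z : ℂ} (hz : z ≠ 0) (e : ℕ) :
    RL.cl (⊥ : Subgroup ℂˣ) (z ^ e) = e • RL.cl (⊥ : Subgroup ℂˣ) z := by
  rw [RL.cl_of_ne ⊥ hz, RL.cl_of_ne ⊥ (pow_ne_zero e hz), ← ofMul_pow]
  congr 1
  rw [← QuotientGroup.mk_pow]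
  congr 1
  apply Units.ext
  rw [Units.val_pow_eq_pow_val, Units.val_mk0, Units.val_mk0]

/-- the power of the defect -/
theorem pow_defect {F : Q20.RS.Sub K} (hF : FinExt F) {χ : Fn F} (h : Char χ) (σ : ℂ ≃+* ℂ)
    (e : ℕ) : e • RL.defect (K := K) ⊥ σ F χ = 0 ↔ StarkPow e χ σ := by
  have h1 := (RL.A_ne hF h).and (RL.A_ne hF (RL.conj_character h σ))
  have key : ∀ ℓ : Lvl K, ℓ.A χ ≠ 0 → ℓ.A (conj σ χ) ≠ 0 →
      (e • RL.cl (⊥ : Subgroup ℂˣ) (σ (ℓ.A χ) / ℓ.A (conj σ χ)) = 0 ↔
        σ (ℓ.A χ) ^ e = ℓ.A (conj σ χ) ^ e) := by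
    intro ℓ a b
    have hne := div_ne_zero ((map_ne_zero σ).2 a) b
    rw [← cl_pow hne, RL.cl_zero _ (pow_ne_zero e hne), Subgroup.mem_bot, Units.ext_iff,
      Units.val_mk0, Units.val_one, div_pow, div_eq_one_iff_eq (pow_ne_zero e b)]
  unfold StarkPow
  refine (RL.germ_zero (u := fun ℓ : Lvl K => e • RL.cl (⊥ : Subgroup ℂˣ)
    (σ (ℓ.A χ) / ℓ.A (conj σ χ)))).trans ?_
  exact ⟨fun h2 => (h1.and h2).mono fun ℓ hℓ => (key ℓ hℓ.1.1 hℓ.1.2).1 hℓ.2,
    fun h2 => (h1.and h2).mono fun ℓ hℓ => (key ℓ hℓ.1.1 hℓ.1.2).2 hℓ.2⟩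

end

end Pool.Agent.Q92.SD
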