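import Pool.Agent.Q92.SD.Main
import Pool.Agent.Q223.LD.PLaw
import Pool.Agent.Q223.LD.Up
import Pool.Agent.Q5.HR.Crit

/-! The fields which suffice for Stark's rational conjecture. -/

set_option autoImplicit false
set_option linter.unusedSectionVars false

namespace Pool.Agent.Q92.SD

open NumberField IsDedekindDomain Pool.Agent.Q20.RS Pool.Agent.Q20.SI Pool.Agent.Q5.BR
open Pool.Agent.Q5.VL (IsLaw)
open scoped Classical

section
variable {F : Type} [Field F] [NumberField F]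

theorem locIn_equiv {S : Finset ℕ} {D : ℕ → Set ℕ}
    (hD : ∀ q ∈ S, ∀ d ∈ D q, ∀ n : ℕ, 0 < n → d * n ∈ D q) {E E₁ : Type} [Field E]
    [NumberField E] [Algebra F E] [Field E₁] [NumberField E₁] [Algebra F E₁] (e : E₁ ≃ₐ[F] E)
    (h : LocIn S D E) : LocIn S D E₁ := by
  let _ : Algebra E E₁ := e.symm.toRingEquiv.toRingHom.toAlgebra
  exact Pool.Agent.Q223.LD.loc_closed hD h

/-- **Local degrees, exactly.** -/
theorem local_exact {S : Finset ℕ} (hS : ∀ q ∈ S, q.Prime) {D : ℕ → Set ℕ}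
    (hD : ∀ q ∈ S, ∀ d ∈ D q, ∀ n : ℕ, 0 < n → d * n ∈ D q)
    (hD' : ∀ q ∈ S, ∀ g : ℕ, (∀ d ∈ D q, g ∣ d) → g = 1)
    (h : ∀ (E : Type) [Field E] [NumberField E] [Algebra F E], LocIn S D E → Q1Cyc E) :
    Q1Over F := by
  refine q1_of_pow fun L _ _ _ _ χ σ => pow_of_law (e := 1) (fun P hP hPE => ?_) χ σ
  rw [Nat.cast_one]
  refine Pool.Agent.Q223.LD.loc_law hP hS hD hD' (fun E _ _ _ hE => ?_) F
  exact hPE E fun E₁ _ _ _ ⟨e⟩ => h E₁ (locIn_equiv hD e hE)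

/-- **Local degrees, the exponents.** -/
theorem local_power {S : Finset ℕ} (hS : ∀ q ∈ S, q.Prime) {M : ℕ} (hM : M ≠ 0) {g : ℕ}
    (hg : LocIn S (fun _ => {d | g ∣ d}) F)
    (h : ∀ (E : Type) [Field E] [NumberField E] [Algebra F E],
      LocIn S (fun _ => {d | M ∣ d}) E → Q1Cyc E) : Powers F (M / M.gcd g) := by
  intro L _ _ _ _ χ σ
  refine pow_of_law (e := M / M.gcd g) (fun P hP hPE => ?_) χ σ
  refine Pool.Agent.Q223.LD.loc_power_law hP hS hM (fun E _ _ _ hE => ?_) F hg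
  refine hPE E fun E₁ _ _ _ ⟨e⟩ => h E₁ (locIn_equiv ?_ e hE)
  intro q _ d hd n _
  exact hd.mul_right n

theorem isRadical_equiv {T : Set ℕ} {p : ℕ} {E E₁ : Type} [Field E]
    [NumberField E] [Algebra F E] [Field E₁] [NumberField E₁] [Algebra F E₁] (e : E₁ ≃ₐ[F] E)
    (h : IsRadical T p F E) : IsRadical T p F E₁ := by
  let _ : Algebra E E₁ := e.symm.toRingEquiv.toRingHom.toAlgebra
  have : IsScalarTower F E E₁ := IsScalarTower.of_algebraMap_eq fun x => (e.symm.commutes x).symm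
  refine h.trans ⟨∅, Set.finite_empty, fun x hx => absurd hx (Set.notMem_empty x), ?_⟩
  rw [eq_top_iff]
  intro x _
  have h1 := (IntermediateField.adjoin E (∅ : Set E₁)).algebraMap_mem (e x)
  have h2 : algebraMap E E₁ (e x) = x := e.symm_apply_apply x
  rwa [h2] at h1

/-- **Radical extensions.** -/
theorem radical_exact {p₁ p₂ : ℕ} (hp₁ : p₁.Prime) (hp₂ : p₂.Prime) (hne : p₁ ≠ p₂) {T : Set ℕ}
    (hpr : ∀ l ∈ T, l.Prime) (hinf : T.Infinite) (k : ℕ)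
    (h : ∀ (E : Type) [Field E] [NumberField E] [Algebra F E] (p : ℕ), p = p₁ ∨ p = p₂ →
      IsRadical T p F E → p ^ k ∣ Module.finrank F E → Q1Cyc E) : Q1Over F := by
  refine q1_of_pow fun L _ _ _ _ χ σ => pow_of_law (e := 1) (fun P hP hPE => ?_) χ σ
  have key : ∀ p : ℕ, p.Prime → (p = p₁ ∨ p = p₂) → P F ((p ^ k : ℕ) : ℤ) := by
    intro p hp hpp
    have hf : Fact p.Prime := ⟨hp⟩
    refine Pool.Agent.Q5.VL.gen_radical_law' hP p hpr hinf k fun E _ _ _ hr hd => ?_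
    refine hPE E fun E₁ _ _ _ ⟨e⟩ => h E₁ p hpp (isRadical_equiv e hr) ?_
    rwa [e.toLinearEquiv.finrank_eq]
  rw [Nat.cast_one]
  refine Pool.Agent.Q5.VL.one_of_gcd hP F (D := {p₁ ^ k, p₂ ^ k}) (fun g hg => ?_) ?_
  · have h1 : (p₁ ^ k).Coprime (p₂ ^ k) := Nat.Coprime.pow _ _ ((Nat.coprime_primes hp₁ hp₂).2 hne)
    exact Nat.eq_one_of_dvd_coprimes h1 (hg _ (Set.mem_insert _ _))
      (hg _ (Set.mem_insert_of_mem _ rfl))
  · rintro d (rfl | rfl)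
    · exact key p₁ hp₁ (Or.inl rfl)
    · exact key p₂ hp₂ (Or.inr rfl)

/-- **Wide families.** -/
theorem wide_power {𝓕 : Set (IntermediateField F (AlgebraicClosure F))}
    (hF : Pool.Agent.Q5.HR.Wide 𝓕) :
    ∃ m : ℕ, 0 < m ∧ ((∀ E ∈ 𝓕, ∀ (E₁ : Type) [Field E₁] [NumberField E₁] [Algebra F E₁],
      Nonempty (E₁ ≃ₐ[F] E) → Q1Cyc E₁) → Powers F m) := by
  obtain ⟨m, hm, h⟩ := Pool.Agent.Q5.VL.wide_law hF
  refine ⟨m, hm, fun hQ L _ _ _ _ χ σ => pow_of_law (fun P hP hPE => ?_) χ σ⟩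
  have h1 := h P hP 1 fun E hE _ => hPE E fun E₁ _ _ _ he => hQ E hE E₁ he
  rwa [mul_one] at h1

end

end Pool.Agent.Q92.SD
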