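import Pool.Agent.Q20.SI.Rel
import Pool.Agent.Q92.SD.Law

/-! Stark's equality over extension fields from `Q1`. -/

set_option autoImplicit false
set_option linter.unusedSectionVars false

namespace Pool.Agent.Q92.SD

open NumberField IsDedekindDomain Pool.Agent.Q20.RS Pool.Agent.Q20.SI
open Pool.Agent.Q20.RS.RL (AddInd plus StarkEq)
open Pool.Agent.Q5.VL (IsLaw)
open scoped Classical

theorem Q1Over.cyc {E : Type} [Field E] [NumberField E] (h : Q1Over E) : Q1Cyc E :=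
  fun L _ _ _ _ D _ _ _ => h L D

section
variable {K : Type} [Field K] [NumberField K] {E' : Q20.RS.Sub K}

theorem exists_equiv {E M : Type} [Field E] [NumberField E] [Field M] [NumberField M]
    [Algebra K E] [Algebra K M] [Algebra E M] [IsScalarTower K E M]
    (j : M →ₐ[K] AlgebraicClosure K)
    (hm : ∀ z, z ∈ E' ↔ ∃ x : E, j (algebraMap E M x) = z) : Nonempty (E ≃ₐ[K] E') := by
  let f : E →ₐ[K] AlgebraicClosure K := j.comp (IsScalarTower.toAlgHom K E M)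
  have h1 : f.fieldRange = E' := by
    ext z
    rw [AlgHom.mem_fieldRange, hm]
    rfl
  exact ⟨(AlgEquiv.ofInjectiveField f).trans (IntermediateField.equivOfEq h1)⟩

/-- Stark's equality for the characters of `Gal(K̄/E')` from `Q1` over `E'` -/
theorem starkEq_of_q1 (hE : FinExt E') {ψ : RL.Lin E'} (hψ : ψ.smooth)
    (hQ : ∀ (E : Type) [Field E] [NumberField E] [Algebra K E], Nonempty (E ≃ₐ[K] E') → Q1Cyc E)
    (σ : ℂ ≃+* ℂ) : StarkEq ψ.fn σ := by
  by_cases htr : ∀ g, ψ.fn g = 1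
  · exact triv_starkEq orb exi Pool.Agent.Q123.SI.lfn Pool.Agent.Q299.SI.CN0.cn0
      Pool.Agent.Q223.SI.rga Pool.Agent.Q223.SI.rgb hE htr σ
  obtain ⟨E, M, _, _, _, _, _, _, _, _, _, j, χ, hm, hinf, hinj, hlift⟩ :=
    Pool.Agent.Q214.SI.ker K E' hE ψ hψ
  have hnt : ∃ y, χ y ≠ 1 := by
    by_contra hn
    push Not at hn
    refine htr fun g => ?_
    obtain ⟨y, hy⟩ := exists_restr (K := K) (E := E) (E' := E') j hm g
    rw [← hinf y g hy]
    unfold cf
    rw [hn, Units.val_one]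
  have hfin : {v : HeightOneSpectrum (𝓞 E) | ¬ Unrm M v}.Finite :=
    Pool.Agent.Q92.AR.ramified_finite
  obtain ⟨y, hy⟩ := hnt
  have hy1 : y ≠ 1 := fun h => hy (by rw [h, map_one])
  obtain ⟨P, -, hP⟩ := Pool.Agent.Q123.SI.Nsp.nsp E M y ∅
  let S : Finset (HeightOneSpectrum (𝓞 E)) := insert (P.under (𝓞 E)) hfin.toFinset
  obtain ⟨D, hDS, hex⟩ := exists_data Pool.Agent.Q182.SI.auxp S
    (fun p hp => Finset.mem_insert_of_mem (hfin.mem_toFinset.2 hp)) hinj
    ⟨.inl P, mem_abv.2 (Finset.mem_insert_self _ _), y, congrArg Sum.inl hP, hy1⟩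
  have hQ' := hQ E (exists_equiv j hm) M D (isCyclic_of_inj hinj) ⟨y, hy1⟩
    ⟨P.under (𝓞 E), fun q hq => by
      rw [hDS] at hq
      rcases Finset.mem_insert.1 hq with h | h
      · exact Or.inl h
      · exact Or.inr (hfin.mem_toFinset.1 h)⟩
  exact starkEq_of_level (stark_of_q1 D cmpT Pool.Agent.Q176.SI.reg orb exi
    Pool.Agent.Q277.SI.ram hQ' hex ⟨y, hy⟩ j hm ψ.fn hinf σ)

/-- the defect of the induced character vanishes if `Q1` holds over the field -/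
theorem tw_zero {ψ : RL.Lin (base K)} (hψ : ψ.smooth) (σ : ℂ ≃+* ℂ) (M : Type) [Field M]
    [NumberField M] [Algebra K M]
    (hQ : ∀ (E : Type) [Field E] [NumberField E] [Algebra K E], Nonempty (E ≃ₐ[K] M) → Q1Cyc E) :
    (1 : ℤ) • RL.defect (K := K) ⊥ σ (base K) (tw ψ M) = 0 := by
  obtain ⟨-, E', hb, e, hE, hind⟩ := tw_char hψ M
  have hs := RL.smooth_res hb hψ
  rw [one_zsmul, ← hind, (RL.defect_addInd (K := K) ⊥ σ).ind _ _ hb hE _ (RL.smooth_char hs),
    RL.defect_bot hE (RL.smooth_char hs) σ]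
  exact starkEq_of_q1 hE hs (fun E _ _ _ h => hQ E (h.map fun f => f.trans e.symm)) σ

theorem tw_self (ψ : RL.Lin (base K)) : tw ψ K = ψ.fn := by
  funext g
  have h1 : Pool.Agent.W353.NF.fixn K K (g : Gal(AlgebraicClosure K/K)) = 1 :=
    Pool.Agent.Q5.BR.fixn_self _
  unfold tw
  rw [h1, Nat.cast_one, mul_one]

/-- the general form of the laws: `P E t` for the fields `E` with `Q1` gives the powers over `K` -/
theorem pow_of_law {e : ℕ} (h : ∀ P : (∀ (F : Type) [Field F] [NumberField F] [Algebra K F],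
      ℤ → Prop), IsLaw P → (∀ (E : Type) [Field E] [NumberField E] [Algebra K E],
        (∀ (E₁ : Type) [Field E₁] [NumberField E₁] [Algebra K E₁],
          Nonempty (E₁ ≃ₐ[K] E) → Q1Cyc E₁) → P E 1) → P K (e : ℤ))
    {L : Type} [Field L] [NumberField L] [Algebra K L] [IsGalois K L]
    (χ : (L ≃ₐ[K] L) →* ℂˣ) (σ : ℂ ≃+* ℂ) : StarkCharPow e χ σ := by
  intro j ψ hinf
  have hψ : ψ.smooth := smooth_of_infl j hinf
  have h1 := h (fun M _ _ _ t => t • RL.defect (K := K) ⊥ σ (base K) (tw ψ M) = 0)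
    (tw_isLaw (RL.defect_addInd (K := K) ⊥ σ) hψ) fun E _ _ _ hE => tw_zero hψ σ E hE
  change (e : ℤ) • RL.defect (K := K) ⊥ σ (base K) (tw ψ K) = 0 at h1
  rw [natCast_zsmul, tw_self, pow_defect fin_base (RL.smooth_char hψ) σ e] at h1
  exact h1

theorem q1_of_pow (h : ∀ (L : Type) [Field L] [NumberField L] [Algebra K L] [IsGalois K L]
    (χ : (L ≃ₐ[K] L) →* ℂˣ) (σ : ℂ ≃+* ℂ), StarkCharPow 1 χ σ) : Q1Over K := by
  intro L _ _ _ _ D
  refine (order_iff D).2 fun χ _ _ σ => ?_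
  intro j ψ hψ
  obtain ⟨N₀, hN₀, h1⟩ := h L χ σ j ψ hψ
  refine ⟨N₀, hN₀, fun ℓ hℓ => ?_⟩
  have h2 : σ (ℓ.A ψ.fn) ^ 1 = ℓ.A (conj σ ψ.fn) ^ 1 := h1 ℓ hℓ
  rw [pow_one, pow_one] at h2
  exact h2

end

end Pool.Agent.Q92.SD
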